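import Pool.Agent.helper61.DP.SpecA

/-!
# QO, QI (project dp, part A): crossing interface edges on a circle
-/

namespace DP

/-- predecessor on the circle -/
theorem QX_pred (hPO : PO_stmt) (x : V) (n : ℕ) (hn : 1 ≤ n) (v : V) (hv : v ∈ bd x n) :
    ∃ w, nxt x n w v := by
  obtain ⟨h1, h2, h3, h4⟩ := hPO
  have hp := h1 x n v hn hv
  by_cases h : pos x n v = 1
  · obtain ⟨w, hw, hpw⟩ := h3 x n (8 * n) hn (by omega) le_rfl
    exact ⟨w, hw, hv, Or.inr ⟨hpw, h⟩⟩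
  · obtain ⟨w, hw, hpw⟩ := h3 x n (pos x n v - 1) hn (by omega) (by omega)
    exact ⟨w, hw, hv, Or.inl (by omega)⟩

/-- successor on the circle -/
theorem QX_succ (hPO : PO_stmt) (x : V) (n : ℕ) (hn : 1 ≤ n) (v : V) (hv : v ∈ bd x n) :
    ∃ w, nxt x n v w := by
  obtain ⟨h1, h2, h3, h4⟩ := hPO
  have hp := h1 x n v hn hv
  by_cases h : pos x n v = 8 * n
  · obtain ⟨w, hw, hpw⟩ := h3 x n 1 hn le_rfl (by omega)
    exact ⟨w, hv, hw, Or.inr ⟨h, hpw⟩⟩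
  · obtain ⟨w, hw, hpw⟩ := h3 x n (pos x n v + 1) hn (by omega) (by omega)
    exact ⟨w, hv, hw, Or.inl (by omega)⟩

theorem QX_arc1 (hPO : PO_stmt) (x : V) (n : ℕ) (hn : 1 ≤ n) (u v v' w : V) (huv : u ≠ v)
    (hv : nxt x n v' v) (hw : onArc x n u v' w) : onArc x n u v w ∧ w ≠ v := by
  obtain ⟨h1, h2, h3, h4⟩ := hPO
  obtain ⟨hv'm, hvm, hv⟩ := hv
  obtain ⟨hum, _, hwm, hw⟩ := hw
  have hu := h1 x n u hn hum
  have hvp := h1 x n v hn hvm
  have hvp' := h1 x n v' hn hv'm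
  have hwp := h1 x n w hn hwm
  have hne : pos x n u ≠ pos x n v := fun h => huv (h2 x n u v hn hum hvm h)
  constructor
  · refine ⟨hum, hvm, hwm, ?_⟩
    split_ifs at hw ⊢ <;> omega
  · rintro rfl
    split_ifs at hw <;> omega

theorem QX_arc2 (hPO : PO_stmt) (x : V) (n : ℕ) (hn : 1 ≤ n) (u v v' w : V) (huv : u ≠ v)
    (hv : nxt x n v v') (hw : onArc x n v' u w) : onArc x n v u w ∧ w ≠ v := by
  obtain ⟨h1, h2, h3, h4⟩ := hPO
  obtain ⟨hvm, hv'm, hv⟩ := hv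
  obtain ⟨_, hum, hwm, hw⟩ := hw
  have hu := h1 x n u hn hum
  have hvp := h1 x n v hn hvm
  have hvp' := h1 x n v' hn hv'm
  have hwp := h1 x n w hn hwm
  have hne : pos x n u ≠ pos x n v := fun h => huv (h2 x n u v hn hum hvm h)
  constructor
  · refine ⟨hvm, hum, hwm, ?_⟩
    split_ifs at hw ⊢ <;> omega
  · rintro rfl
    split_ifs at hw <;> omega

theorem QX_arc3 (hPO : PO_stmt) (x : V) (n : ℕ) (hn : 1 ≤ n) (u v v' b : V) (huv : u ≠ v)
    (hv : nxt x n v v') (hb : nxt x n u b) (hw : onArc x n v' u b) : False := by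
  obtain ⟨h1, h2, h3, h4⟩ := hPO
  obtain ⟨hvm, hv'm, hv⟩ := hv
  obtain ⟨_, hum, hwm, hw⟩ := hw
  obtain ⟨_, _, hb⟩ := hb
  have hu := h1 x n u hn hum
  have hvp := h1 x n v hn hvm
  have hvp' := h1 x n v' hn hv'm
  have hwp := h1 x n b hn hwm
  have hne : pos x n u ≠ pos x n v := fun h => huv (h2 x n u v hn hum hvm h)
  split_ifs at hw <;> omega

theorem QX_left (x : V) (n : ℕ) (u v : V) (hu : u ∈ bd x n) (hv : v ∈ bd x n) :
    onArc x n u v u := by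
  refine ⟨hu, hv, hu, ?_⟩
  split_ifs <;> omega

theorem QX_right (x : V) (n : ℕ) (u v : V) (hu : u ∈ bd x n) (hv : v ∈ bd x n) :
    onArc x n u v v := by
  refine ⟨hu, hv, hv, ?_⟩
  split_ifs <;> omega

/-- the cluster of `u` and its neighbours -/
theorem QX_nbd (c : V → Bool) (R : Set V) (u b : V) (k : Bool)
    (hk : k ≠ c u) (hb : b ∈ nbd R {w | Conn c (c u) R u w}) : c b = k := by
  obtain ⟨hbR, hbC, z, hz, hzb⟩ := hb
  by_contra hcb
  have h1 : c b = c u := by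
    revert hcb hk
    cases c b <;> cases c u <;> cases k <;> simp
  exact hbC (Con.step hz hzb ⟨hbR, h1⟩)

theorem QX_nbd_sub (c : V → Bool) (R : Set V) (u : V) (k : Bool) (hk : k ≠ c u) :
    nbd R {w | Conn c (c u) R u w} ⊆ {w | w ∈ R ∧ c w = k} := fun _ hb =>
  ⟨hb.1, QX_nbd c R u _ k hk hb⟩

/-- a connection of the other colour avoids the cluster -/
theorem QX_avoid (c : V → Bool) (R : Set V) (u v p : V) (k : Bool) (hk : k ≠ c u)
    (h : Conn c k R v p) : Con (R \ {w | Conn c (c u) R u w}) v p := by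
  refine Con.mono ?_ h
  rintro w ⟨hwR, hwk⟩
  refine ⟨hwR, ?_⟩
  intro hw
  have := (Con.mem_right hw).2
  exact hk (hwk.symm.trans this)

theorem QX_main (hPO : PO_stmt) (c : V → Bool) (x : V) (n : ℕ) (R : Set V) (B : Set V)
    (hn : 1 ≤ n) (hR : bd x n ⊆ R) (u v : V) (hu : u ∈ bd x n) (hv : v ∈ bd x n)
    (hc : c u ≠ c v) (hvB : ∃ p ∈ B, Conn c (c v) R v p)
    (hG : ∀ v' ∈ bd x n, (∃ p ∈ B, Con (R \ {w | Conn c (c u) R u w}) v' p) →
      (∃ a b : V, (nxt x n a b ∨ nxt x n b a) ∧ onArc x n u v' a ∧ onArc x n u v' b ∧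
          a ∈ {w | Conn c (c u) R u w} ∧ b ∉ {w | Conn c (c u) R u w} ∧
            ∃ p ∈ B, Con (nbd R {w | Conn c (c u) R u w}) b p) ∧
        (∃ a b : V, (nxt x n a b ∨ nxt x n b a) ∧ onArc x n v' u a ∧ onArc x n v' u b ∧
          a ∈ {w | Conn c (c u) R u w} ∧ b ∉ {w | Conn c (c u) R u w} ∧
            ∃ p ∈ B, Con (nbd R {w | Conn c (c u) R u w}) b p)) :
    (∃ a b : V, (nxt x n a b ∨ (nxt x n b a ∧ b ≠ v)) ∧ onArc x n u v a ∧ onArc x n u v b ∧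
        c b = c v ∧ Conn c (c u) R u a ∧ (b ∈ bd x n ∧ ∃ p ∈ B, Conn c (c b) R b p)) ∧
      (∃ a b : V, ((nxt x n a b ∧ a ≠ u) ∨ nxt x n b a) ∧ onArc x n v u a ∧ onArc x n v u b ∧
        c b = c v ∧ Conn c (c u) R u a ∧ (b ∈ bd x n ∧ ∃ p ∈ B, Conn c (c b) R b p)) := by
  have huv : u ≠ v := fun h => hc (by rw [h])
  have hk : c v ≠ c u := fun h => hc h.symm
  have fin : ∀ b p, Con (nbd R {w | Conn c (c u) R u w}) b p →
      c b = c v ∧ Conn c (c b) R b p := by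
    intro b p hbp
    have h1 : c b = c v := QX_nbd c R u b (c v) hk hbp.mem_left
    refine ⟨h1, ?_⟩
    rw [h1]
    exact Con.mono (QX_nbd_sub c R u (c v) hk) hbp
  have ext : ∀ v', v' ∈ bd x n → Adj v' v → v' ∉ {w | Conn c (c u) R u w} →
      ∃ p ∈ B, Con (R \ {w | Conn c (c u) R u w}) v' p := by
    intro v' hv' hadj hnot
    obtain ⟨p, hp, hvp⟩ := hvB
    have h1 := QX_avoid c R u v p (c v) hk hvp
    have hm : v' ∈ R \ {w | Conn c (c u) R u w} := ⟨hR hv', hnot⟩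
    exact ⟨p, hp, (Con.single hm hadj h1.mem_left).trans h1⟩
  constructor
  · obtain ⟨v', hv'⟩ := QX_pred hPO x n hn v hv
    have hadj : Adj v' v := hPO.2.2.2 x n v' v hn hv'
    by_cases hmem : v' ∈ {w | Conn c (c u) R u w}
    · refine ⟨v', v, Or.inl hv', ?_, QX_right x n u v hu hv, rfl, hmem, hv, hvB⟩
      exact (QX_arc1 hPO x n hn u v v' v' huv hv' (QX_right x n u v' hu hv'.1)).1
    · obtain ⟨a, b, hab, ha, hb, haC, hbC, p, hp, hbp⟩ := (hG v' hv'.1 (ext v' hv'.1 hadj hmem)).1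
      have ha' := QX_arc1 hPO x n hn u v v' a huv hv' ha
      have hb' := QX_arc1 hPO x n hn u v v' b huv hv' hb
      have hf := fin b p hbp
      refine ⟨a, b, ?_, ha'.1, hb'.1, hf.1, haC, hb.2.2.1, p, hp, hf.2⟩
      rcases hab with h | h
      · exact Or.inl h
      · exact Or.inr ⟨h, hb'.2⟩
  · obtain ⟨v', hv'⟩ := QX_succ hPO x n hn v hv
    have hadj : Adj v' v := (hPO.2.2.2 x n v v' hn hv').symm
    by_cases hmem : v' ∈ {w | Conn c (c u) R u w}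
    · refine ⟨v', v, Or.inr hv', ?_, QX_left x n v u hv hu, rfl, hmem, hv, hvB⟩
      exact (QX_arc2 hPO x n hn u v v' v' huv hv' (QX_left x n v' u hv'.2.1 hu)).1
    · obtain ⟨a, b, hab, ha, hb, haC, hbC, p, hp, hbp⟩ :=
        (hG v' hv'.2.1 (ext v' hv'.2.1 hadj hmem)).2
      have ha' := QX_arc2 hPO x n hn u v v' a huv hv' ha
      have hb' := QX_arc2 hPO x n hn u v v' b huv hv' hb
      have hf := fin b p hbp
      refine ⟨a, b, ?_, ha'.1, hb'.1, hf.1, haC, hb.2.2.1, p, hp, hf.2⟩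
      rcases hab with h | h
      · refine Or.inl ⟨h, ?_⟩
        rintro rfl
        exact QX_arc3 hPO x n hn a v v' b huv hv' h hb
      · exact Or.inr h

/-- GO with the weaker conclusion (the interface edge only has both ends on the arc). -/
def GOw_stmt : Prop :=
  ∀ (x : V) (m n : ℕ) (C : Set V) (u v : V), Even (x.1 + x.2) → 1 ≤ m → m < n →
    C ⊆ ann x m n → u ∈ bd x n → v ∈ bd x n → (∃ p ∈ bd x m, Con C u p) →
      (∃ p ∈ bd x m, Con (ann x m n \ C) v p) →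
        (∃ a b : V, (nxt x n a b ∨ nxt x n b a) ∧ onArc x n u v a ∧ onArc x n u v b ∧
          a ∈ C ∧ b ∉ C ∧ ∃ p ∈ bd x m, Con (nbd (ann x m n) C) b p) ∧
        (∃ a b : V, (nxt x n a b ∨ nxt x n b a) ∧ onArc x n v u a ∧ onArc x n v u b ∧
          a ∈ C ∧ b ∉ C ∧ ∃ p ∈ bd x m, Con (nbd (ann x m n) C) b p)

/-- GI with the weaker conclusion. -/
def GIw_stmt : Prop :=
  ∀ (x : V) (m n : ℕ) (C : Set V) (u v : V), Even (x.1 + x.2) → 1 ≤ m → m < n →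
    C ⊆ ann x m n → u ∈ bd x m → v ∈ bd x m → (∃ p ∈ bd x n, Con C u p) →
      (∃ p ∈ bd x n, Con (ann x m n \ C) v p) →
        (∃ a b : V, (nxt x m a b ∨ nxt x m b a) ∧ onArc x m u v a ∧ onArc x m u v b ∧
          a ∈ C ∧ b ∉ C ∧ ∃ p ∈ bd x n, Con (nbd (ann x m n) C) b p) ∧
        (∃ a b : V, (nxt x m a b ∨ nxt x m b a) ∧ onArc x m v u a ∧ onArc x m v u b ∧
          a ∈ C ∧ b ∉ C ∧ ∃ p ∈ bd x n, Con (nbd (ann x m n) C) b p)

theorem QX_GOw (hGO : GO_stmt) : GOw_stmt := by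
  intro x m n C u v hx hm hmn hC hu hv hup hvp
  obtain ⟨⟨a, b, h1, h2⟩, ⟨a', b', h1', h2'⟩⟩ := hGO x m n C u v hx hm hmn hC hu hv hup hvp
  exact ⟨⟨a, b, h1.imp id And.left, h2⟩, ⟨a', b', h1'.imp And.left id, h2'⟩⟩

theorem QX_GIw (hGI : GI_stmt) : GIw_stmt := by
  intro x m n C u v hx hm hmn hC hu hv hup hvp
  obtain ⟨⟨a, b, h1, h2⟩, ⟨a', b', h1', h2'⟩⟩ := hGI x m n C u v hx hm hmn hC hu hv hup hvp
  exact ⟨⟨a, b, h1.imp id And.left, h2⟩, ⟨a', b', h1'.imp And.left id, h2'⟩⟩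

/-- QO from PO and the weak form of GO. -/
theorem QOw (hPO : PO_stmt) (hGO : GOw_stmt) : QO_stmt := by
  intro c x n' n hx hn' hlt u v hu hv hc
  obtain ⟨hub, pu, hpu, hup⟩ := hu
  obtain ⟨hvb, hvB⟩ := hv
  have hR : bd x n ⊆ ann x n' n := by
    intro w hw
    have : sd x w = n := hw
    exact ⟨by omega, by omega⟩
  refine QX_main hPO c x n (ann x n' n) (bd x n') (by omega) hR u v hub hvb hc hvB ?_
  intro v' hv' hcon
  refine hGO x n' n {w | Conn c (c u) (ann x n' n) u w} u v' hx hn' hlt ?_ hub hv' ?_ hcon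
  · intro w hw
    exact (Con.mem_right hw).1
  · exact ⟨pu, hpu, Con.cluster hup⟩

/-- QI from PO and the weak form of GI. -/
theorem QIw (hPO : PO_stmt) (hGI : GIw_stmt) : QI_stmt := by
  intro c x m m' hx hm hlt u v hu hv hc
  obtain ⟨hub, pu, hpu, hup⟩ := hu
  obtain ⟨hvb, hvB⟩ := hv
  have hR : bd x m ⊆ ann x m m' := by
    intro w hw
    have : sd x w = m := hw
    exact ⟨by omega, by omega⟩
  refine QX_main hPO c x m (ann x m m') (bd x m') (by omega) hR u v hub hvb hc hvB ?_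
  intro v' hv' hcon
  refine hGI x m m' {w | Conn c (c u) (ann x m m') u w} u v' hx hm hlt ?_ hub hv' ?_ hcon
  · intro w hw
    exact (Con.mem_right hw).1
  · exact ⟨pu, hpu, Con.cluster hup⟩

/-- QO from PO and GO. -/
theorem QO (hPO : PO_stmt) (hGO : GO_stmt) : QO_stmt := QOw hPO (QX_GOw hGO)

/-- QI from PO and GI. -/
theorem QI (hPO : PO_stmt) (hGI : GI_stmt) : QI_stmt := QIw hPO (QX_GIw hGI)

end DP
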