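import Pool.Agent.helper96.DP.SpecE
import Pool.Agent.helper96.DP.Basic

/-!
# MM, MF (project dp, part E): marked arms restrict; marked arms are arms
-/

namespace DP

/-- Points close to the standard points have positions close to `m, 3m, 5m, 7m`. -/
theorem MM_pos (x : V) (m : ℕ) (hm : 64 ≤ m) (i : ℕ) (hi : i < 4) (p : V) (hp : p ∈ bd x m)
    (h : sd (zpt x m i) p ≤ m / 64) :
    64 * pos x m p ≤ 64 * ((2 * i + 1) * m) + m ∧ 64 * ((2 * i + 1) * m) ≤ 64 * pos x m p + m := by
  have hp' : sd x p = m := hp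
  unfold zpt sd at h
  unfold sd at hp'
  unfold pos
  interval_cases i
  · simp only [Nat.zero_mod, if_true] at h
    split_ifs <;> push_cast <;> omega
  · simp only [show (1 : ℕ) % 4 ≠ 0 by norm_num, show (1 : ℕ) % 4 = 1 by norm_num, if_true,
      if_false] at h
    split_ifs <;> push_cast <;> omega
  · simp only [show (2 : ℕ) % 4 ≠ 0 by norm_num, show (2 : ℕ) % 4 ≠ 1 by norm_num,
      show (2 : ℕ) % 4 = 2 by norm_num, if_true, if_false] at h
    split_ifs <;> push_cast <;> omega
  · simp only [show (3 : ℕ) % 4 ≠ 0 by norm_num, show (3 : ℕ) % 4 ≠ 1 by norm_num,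
      show (3 : ℕ) % 4 ≠ 2 by norm_num, if_false] at h
    split_ifs <;> push_cast <;> omega

theorem MM_alt (x : V) (m : ℕ) (hm : 64 ≤ m) (p : ℕ → V) (hp : ∀ i < 4, p i ∈ bd x m)
    (h : ∀ i < 4, sd (zpt x m i) (p i) ≤ m / 64) : alt x m (p 0) (p 1) (p 2) (p 3) := by
  have h0 := MM_pos x m hm 0 (by norm_num) _ (hp 0 (by norm_num)) (h 0 (by norm_num))
  have h1 := MM_pos x m hm 1 (by norm_num) _ (hp 1 (by norm_num)) (h 1 (by norm_num))
  have h2 := MM_pos x m hm 2 (by norm_num) _ (hp 2 (by norm_num)) (h 2 (by norm_num))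
  have h3 := MM_pos x m hm 3 (by norm_num) _ (hp 3 (by norm_num)) (h 3 (by norm_num))
  push_cast at h0 h1 h2 h3
  have hne : ∀ a b : V, pos x m a ≠ pos x m b → a ≠ b := fun a b h e => h (by rw [e])
  refine ⟨⟨hp 0 (by norm_num), hp 1 (by norm_num), hp 2 (by norm_num), hp 3 (by norm_num)⟩, ?_,
    Or.inl ⟨⟨hp 0 (by norm_num), hp 2 (by norm_num), hp 1 (by norm_num), ?_⟩,
      ⟨hp 2 (by norm_num), hp 0 (by norm_num), hp 3 (by norm_num), ?_⟩⟩⟩
  · have a1 := hne (p 0) (p 1) (by omega)
    have a2 := hne (p 0) (p 2) (by omega)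
    have a3 := hne (p 0) (p 3) (by omega)
    have a4 := hne (p 1) (p 2) (by omega)
    have a5 := hne (p 1) (p 3) (by omega)
    have a6 := hne (p 2) (p 3) (by omega)
    simp [a1, a2, a3, a4, a5, a6]
  · split_ifs <;> omega
  · split_ifs <;> omega

/-- The end points of arms from the standard points are in order. -/
theorem MM_ord (hOT : OT_stmt) (c : V → Bool) (j : ℕ) (x : V) (m n : ℕ) (hj : j = 2 ∨ j = 4)
    (hx : Even (x.1 + x.2)) (hm : 64 ≤ m) (hmn : m < n) (p u : ℕ → V)
    (hp : ∀ i < j, p i ∈ bd x m ∧ sd (zpt x m i) (p i) ≤ m / 64) (hu : ∀ i < j, u i ∈ bd x n)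
    (hpu : ∀ i < j, Conn c (kol i) (ann x m n) (p i) (u i)) : Ord j x n u := by
  rcases hj with rfl | rfl
  · have h0 := (hpu 0 (by norm_num)).colour_right
    have h1 := (hpu 1 (by norm_num)).colour_right
    have : u 0 ≠ u 1 := by
      intro h
      rw [h, h1] at h0
      simp [kol] at h0
    simpa [Ord] using this
  · have ha := MM_alt x m hm p (fun i hi => (hp i hi).1) (fun i hi => (hp i hi).2)
    have h0 := hpu 0 (by norm_num)
    have h1 := hpu 1 (by norm_num)
    have h2 := hpu 2 (by norm_num)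
    have h3 := hpu 3 (by norm_num)
    have k0 : kol 0 = true := by simp [kol]
    have k1 : kol 1 = !true := by simp [kol]
    have k2 : kol 2 = true := by simp [kol]
    have k3 : kol 3 = !true := by simp [kol]
    rw [k0] at h0
    rw [k1] at h1
    rw [k2] at h2
    rw [k3] at h3
    have := hOT c true x m n hx (by omega) hmn (p 0) (p 1) (p 2) (p 3) (u 0) (u 1) (u 2) (u 3) ha
      h0.colour_left h1.colour_left h2.colour_left h3.colour_left (hu 0 (by norm_num))
      (hu 1 (by norm_num)) (hu 2 (by norm_num)) (hu 3 (by norm_num)) h0 h1 h2 h3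
    simpa [Ord] using this

/-- Marked arms restrict. -/
theorem MM (hOT : OT_stmt) : MM_stmt := by
  intro c j x m n' n hj hx hm hmn' hn'n hF
  obtain ⟨u, hu, h⟩ := hF
  have key : ∀ i, ∃ p u' : V, i < j → p ∈ (Dmark j x m).I i ∧ u' ∈ bd x n' ∧
      Conn c (kol i) (HS true x n' \ (Dmark j x m).N (kol i)) p u' := by
    intro i
    by_cases hi : i < j
    · obtain ⟨hui, p, hp, hpu⟩ := h i hi
      have hpm : sd x p = m := hp.1
      have hun : sd x (u i) = n := hui
      obtain ⟨w, hw, h1, h2⟩ := Con.exit (x := x) (m := n') hpu (by omega) (by omega)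
      refine ⟨p, w, fun _ => ⟨hp, hw, ?_⟩⟩
      refine Con.mono ?_ h1
      rintro z ⟨⟨⟨hz1, hz2⟩, hz3⟩, hz4⟩
      exact ⟨⟨hz4, hz2⟩, hz3⟩
    · exact ⟨x, x, fun h => absurd h hi⟩
  choose p u' hpu using key
  refine ⟨u', ?_, fun i hi => ⟨(hpu i hi).2.1, p i, (hpu i hi).1, (hpu i hi).2.2⟩⟩
  refine MM_ord hOT c j x m n' hj hx hm (by omega) p u' (fun i hi => (hpu i hi).1)
    (fun i hi => (hpu i hi).2.1) (fun i hi => Conn.mono ?_ (hpu i hi).2.2)
  rintro z ⟨hz1, hz2⟩
  refine ⟨?_, hz1⟩
  by_contra hlt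
  exact hz2 (Or.inl (show sd x z < m by omega))

/-- Marked arms are arms. -/
theorem MF (hOT : OT_stmt) (hIF : IF_stmt) : MF_stmt := by
  intro c j x m n hj hx hm hmn
  have hmn' : m < n := by omega
  constructor
  · rintro ⟨u, hu, h⟩
    have key : ∀ i, ∃ p : V, i < j → p ∈ bd x m ∧ sd (zpt x m i) p ≤ m / 64 ∧
        Conn c (kol i) (ann x m n) p (u i) := by
      intro i
      by_cases hi : i < j
      · obtain ⟨hui, p, hp, hpu⟩ := h i hi
        refine ⟨p, fun _ => ⟨hp.1, hp.2, Conn.mono ?_ hpu⟩⟩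
        rintro z ⟨hz1, hz2⟩
        refine ⟨?_, hz1⟩
        by_contra hlt
        exact hz2 (Or.inl (show sd x z < m by omega))
      · exact ⟨x, fun h => absurd h hi⟩
    choose p hp using key
    rcases hj with rfl | rfl
    · have h0 := (hp 0 (by norm_num)).2.2
      have h1 := (hp 1 (by norm_num)).2.2
      have k0 : kol 0 = true := by simp [kol]
      have k1 : kol 1 = false := by simp [kol]
      rw [k0] at h0
      rw [k1] at h1
      have : two c x m n := ⟨⟨p 0, (hp 0 (by norm_num)).1, u 0, (h 0 (by norm_num)).1, h0⟩,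
        ⟨p 1, (hp 1 (by norm_num)).1, u 1, (h 1 (by norm_num)).1, h1⟩⟩
      simpa [ar] using this
    · have ha := MM_alt x m hm p (fun i hi => (hp i hi).1) (fun i hi => (hp i hi).2.1)
      have inx : ∀ i < 4, inX c x m n (p i) := by
        intro i hi
        obtain ⟨hp1, hp2, hp3⟩ := hp i hi
        refine ⟨hp1, u i, (h i hi).1, ?_⟩
        rw [hp3.colour_left]
        exact hp3
      have h0 := (hp 0 (by norm_num)).2.2
      have h1 := (hp 1 (by norm_num)).2.2
      have h2 := (hp 2 (by norm_num)).2.2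
      have h3 := (hp 3 (by norm_num)).2.2
      have k0 : kol 0 = true := by simp [kol]
      have k1 : kol 1 = !true := by simp [kol]
      have k2 : kol 2 = true := by simp [kol]
      have k3 : kol 3 = !true := by simp [kol]
      rw [k0] at h0
      rw [k1] at h1
      rw [k2] at h2
      rw [k3] at h3
      have hnc := hIF c true x m n hx (by omega) hmn' (p 0) (p 1) (p 2) (p 3) ha h0.colour_left
        h1.colour_left h2.colour_left h3.colour_left (inx 0 (by norm_num)) (inx 1 (by norm_num))
        (inx 2 (by norm_num)) (inx 3 (by norm_num))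
      have : four c x m n := ⟨p 0, (hp 0 (by norm_num)).1, p 2, (hp 2 (by norm_num)).1,
        ⟨u 0, (h 0 (by norm_num)).1, h0⟩, ⟨u 2, (h 2 (by norm_num)).1, h2⟩, hnc⟩
      simpa [ar] using this
  · rintro ⟨hT, hFl⟩
    -- arms for every index
    have reg : ∀ k, MrkC c j false x m (Dfree false x n) (zpt x m) (m / 64) (m / 8) k →
        ∀ l < j, kol l = k → ∃ p ∈ bd x n, ∃ u ∈ bd x m, sd (zpt x m l) u ≤ m / 64 ∧
          Conn c k (HS false x m \ ((Dfree false x n).N k ∪ opp j (zpt x m) (m / 8) k)) p u := by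
      intro k hk l hl hlk
      rcases hk with h | h
      · exact h l hl hlk
      · have hj' : (l + 2) % j < j := Nat.mod_lt _ (by omega)
        have hkk : kol ((l + 2) % j) = k := by
          rw [← hlk]
          unfold kol
          rcases hj with rfl | rfl
          · congr 1
            have : (l + 2) % 2 % 2 = l % 2 := by omega
            rw [this]
          · congr 1
            have : (l + 2) % 4 % 2 = l % 2 := by omega
            rw [this]
        have := h ((l + 2) % j) hj' hkk
        have e : ((l + 2) % j + 2) % j = l := by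
          rcases hj with rfl | rfl <;> omega
        rwa [e] at this
    have key : ∀ l, ∃ u p : V, l < j → u ∈ bd x n ∧ p ∈ (Dmark j x m).I l ∧
        Conn c (kol l) (HS true x n \ (Dmark j x m).N (kol l)) p u := by
      intro l
      by_cases hl : l < j
      · have hM : MrkC c j false x m (Dfree false x n) (zpt x m) (m / 64) (m / 8) (kol l) := by
          cases kol l
          · exact hFl
          · exact hT
        obtain ⟨p, hp, u, hu, h1, h2⟩ := reg (kol l) hM l hl rfl
        refine ⟨p, u, fun _ => ⟨hp, ⟨hu, h1⟩, (Conn.mono ?_ h2).symm⟩⟩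
        rintro z ⟨hz1, hz2⟩
        have hz1' : m ≤ sd x z := hz1
        have hz3 : ¬ (n < sd x z) := fun h => hz2 (Or.inl h)
        refine ⟨show sd x z ≤ n by omega, ?_⟩
        rintro (hz | hz)
        · have : sd x z < m := hz
          omega
        · exact hz2 (Or.inr hz)
      · exact ⟨x, x, fun h => absurd h hl⟩
    choose u p hup using key
    refine ⟨u, ?_, fun i hi => ⟨(hup i hi).1, p i, (hup i hi).2.1, (hup i hi).2.2⟩⟩
    refine MM_ord hOT c j x m n hj hx hm hmn' p u (fun i hi => (hup i hi).2.1)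
      (fun i hi => (hup i hi).1) (fun i hi => Conn.mono ?_ (hup i hi).2.2)
    rintro z ⟨hz1, hz2⟩
    refine ⟨?_, hz1⟩
    by_contra hlt
    exact hz2 (Or.inl (show sd x z < m by omega))

end DP
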