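import Pool.Agent.helper96.DP.SpecE
import Pool.Agent.helper96.DP.Basic

/-!
# SEPO (project dp, part E): separation of arms, outer side
-/

namespace DP

open MeasureTheory

theorem SEPO_locFam (j : ℕ) (x : V) (n : ℕ) (D : Dat) :
    Loc (Ev fun c => Fam c j true x n D) (box x n) := by
  refine Loc.ev (box_finite x n) ?_
  intro c c' hc
  unfold Fam
  refine exists_congr fun u => and_congr Iff.rfl (forall_congr' fun i => imp_congr Iff.rfl
    (and_congr Iff.rfl (exists_congr fun p => and_congr Iff.rfl ?_)))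
  exact Conn.congr fun v hv => hc v hv.1

theorem SEPO_ok (x : V) (r r' : ℕ) (h : r ≤ r') (D : Dat) (hD : D.ok true x r) :
    D.ok true x r' := by
  simp only [Dat.ok, if_true] at hD ⊢
  have hb : box x r ⊆ box x r' := fun v hv => le_trans (show sd x v ≤ r from hv) h
  exact ⟨fun i => (hD.1 i).trans hb, fun k => (hD.2 k).trans hb⟩

theorem SEPO_extra (x : V) (r : ℕ) : Extra true x r Set.univ Set.univ := by
  refine ⟨Mon.univ _, Mon.univ _, ?_⟩
  simp only [if_true]
  exact ⟨Loc.univ _, Loc.univ _⟩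

theorem SEPO_Q_le_one (ρ : V → ℝ) (F G : Set (V → Bool)) : Q ρ F G ≤ 1 := by
  have : IsProbabilityMeasure (PP ρ) := by
    unfold PP
    infer_instance
  exact measureReal_le_one

theorem SEPO (hSE1 : SE1_stmt) (hSE3 : SE3_stmt) : SEPO_stmt := by
  intro b₀ hb₀
  obtain ⟨c₁, hc₁, i₁, h1⟩ := hSE1
  obtain ⟨C, hC, i₂, h3⟩ := hSE3 (c₁ / 2) (by positivity)
  refine ⟨2 * C + 1 / b₀, by positivity, max i₁ i₂ + 1, ?_⟩
  intro j ρ x D i₀ hj hρ hx hi₀ hD hrestr hb i hi
  have hi₁ : i₁ ≤ i₀ := by omega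
  have hi₂ : i₂ ≤ i₀ := by omega
  induction i, hi using Nat.le_induction with
  | base =>
    have hle := SEPO_Q_le_one ρ (Ev fun c => Fam c j true x (2 ^ i₀) D)
      (Ev fun c => Fam c j true x (2 ^ i₀) D)
    refine hle.trans ?_
    set g := Q ρ (Ev fun c => Std c j true x (2 ^ (i₀ + 1)) D)
      (Ev fun c => Std c j true x (2 ^ (i₀ + 1)) D)
    have : 1 / b₀ * b₀ ≤ (2 * C + 1 / b₀) * g := by
      apply mul_le_mul _ hb hb₀.le (by positivity)
      linarith
    have e : 1 / b₀ * b₀ = 1 := by field_simp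
    rwa [e] at this
  | succ i hi ih =>
    have hok : D.ok true x (2 ^ i) :=
      SEPO_ok x _ _ (Nat.pow_le_pow_right (by norm_num) (by omega)) D hD
    have a1 := h1 j true ρ x D Set.univ Set.univ (i + 1) hj hρ hx (by omega)
      (by simpa using hok) (by simpa using SEPO_extra x (2 ^ i))
    have a3 := h3 j true ρ x D Set.univ Set.univ (Ev fun c => Fam c j true x (2 ^ i) D) (i + 1) hj
      hρ hx (by omega) (by simpa using hok) (by simpa using SEPO_extra x (2 ^ i))
      (by simpa using SEPO_locFam j x (2 ^ i) D) (by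
        intro b hb'
        exact hrestr _ i hi hb'.2)
    simp only [Set.univ_inter] at a1 a3
    have e : nx true (2 ^ (i + 1)) = 2 ^ (i + 1 + 1) := by
      simp [nx, pow_succ]
      ring
    rw [e] at a1 a3
    set g := Q ρ (Ev fun c => Std c j true x (2 ^ (i + 1)) D)
      (Ev fun c => Std c j true x (2 ^ (i + 1)) D)
    set g' := Q ρ (Ev fun c => Std c j true x (2 ^ (i + 1 + 1)) D)
      (Ev fun c => Std c j true x (2 ^ (i + 1 + 1)) D)
    set f := Q ρ (Ev fun c => Fam c j true x (2 ^ i) D) (Ev fun c => Fam c j true x (2 ^ i) D)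
    have k0 : 0 < 1 / b₀ := by positivity
    have k1 : c₁ / 2 * f ≤ c₁ / 2 * ((2 * C + 1 / b₀) * g) :=
      mul_le_mul_of_nonneg_left ih (by positivity)
    have k2 : (2 * C + 1 / b₀) / 2 * (c₁ * g) ≤ (2 * C + 1 / b₀) / 2 * g' :=
      mul_le_mul_of_nonneg_left a1 (by positivity)
    have k3 : 0 ≤ g' := measureReal_nonneg
    have k4 : 0 ≤ 1 / b₀ * g' := by positivity
    refine a3.trans ?_
    nlinarith

end DP
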