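import Pool.Agent.helper96.DP.SpecF

/-!
# SUM (project dp, part F): the sum of `4 ^ l * al k l` is comparable with its last term
-/

namespace DP

open MeasureTheory

theorem SUM_al (k i : ℕ) (hQZ : QZ_stmt) : al k i = qa (fun _ => 0) 4 0 (2 ^ k) (2 ^ i) := by
  have := hQZ 4 0 (2 ^ k) (2 ^ i)
  simp only [ar, if_true] at this
  exact this

theorem SUM_nonneg (k i : ℕ) : 0 ≤ al k i := measureReal_nonneg

theorem SUM (hGRO : GRO_stmt) (hEXR : EXR_stmt) (hQZ : QZ_stmt) : SUM_stmt := by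
  obtain ⟨k₀, hG⟩ := hGRO
  obtain ⟨C₁, hC₁, i₁, hE⟩ := hEXR
  refine ⟨max k₀ i₁, fun k hk => ?_⟩
  obtain ⟨c, a, hc, ha, h⟩ := hG k (by omega)
  -- the first value is positive
  have hpos : 0 < al k (k + 1) := by
    rw [SUM_al k (k + 1) hQZ]
    exact (hE 4 (fun _ => 0) 0 k (k + 1) 0 (Or.inr rfl) (fun _ => ⟨le_rfl, zero_le_one⟩)
      (by simp) (by omega) (by omega)).2.2
  set r : ℝ := (2 : ℝ) ^ (-a) with hr
  have hr0 : 0 < r := by positivity
  have hr1 : r < 1 := by
    rw [hr, Real.rpow_neg (by norm_num)]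
    exact inv_lt_one_of_one_lt₀ (Real.one_lt_rpow (by norm_num) ha)
  set A : ℝ := 1 / c * (1 / (1 - r)) with hA
  set B : ℝ := 1 / (c * (4 ^ (k + 1) * al k (k + 1))) with hB
  have h1r : 0 < 1 - r := by linarith
  have hApos : 0 < A := by positivity
  have hBpos : 0 < B := by positivity
  refine ⟨A + B, by positivity, fun i hi => ?_⟩
  have hi0 : 0 ≤ (4 : ℝ) ^ i * al k i := mul_nonneg (by positivity) (SUM_nonneg k i)
  have hterm : ∀ l ∈ Finset.Ioc k i, (4 : ℝ) ^ l * al k l ≤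
      1 / c * (4 ^ i * al k i) * r ^ (i - l) := by
    intro l hl
    rw [Finset.mem_Ioc] at hl
    have h1 := h l i hl.1 hl.2
    have h2 : (2 : ℝ) ^ (a * ((i : ℝ) - l)) * r ^ (i - l) = 1 := by
      rw [hr, ← Real.rpow_natCast, ← Real.rpow_mul (by norm_num), ← Real.rpow_add (by norm_num),
        Nat.cast_sub hl.2]
      have : a * ((i : ℝ) - l) + -a * ((i : ℝ) - l) = 0 := by ring
      rw [this, Real.rpow_zero]
    have h3 : 0 ≤ r ^ (i - l) := by positivity
    have h4 := mul_le_mul_of_nonneg_right h1 h3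
    have h5 : c * (2 : ℝ) ^ (a * ((i : ℝ) - l)) * (4 ^ l * al k l) * r ^ (i - l) =
        c * (4 ^ l * al k l) * ((2 : ℝ) ^ (a * ((i : ℝ) - l)) * r ^ (i - l)) := by ring
    rw [h5, h2, mul_one] at h4
    have h6 : (4 : ℝ) ^ l * al k l = 1 / c * (c * (4 ^ l * al k l)) := by field_simp
    rw [h6]
    calc 1 / c * (c * (4 ^ l * al k l)) ≤ 1 / c * (4 ^ i * al k i * r ^ (i - l)) :=
          mul_le_mul_of_nonneg_left h4 (by positivity)
      _ = _ := by ring
  have hgeo : ∑ l ∈ Finset.Ioc k i, r ^ (i - l) ≤ 1 / (1 - r) := by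
    have h1 : ∑ l ∈ Finset.Ioc k i, r ^ (i - l) ≤ ∑ l ∈ Finset.range (i + 1), r ^ (i - l) := by
      apply Finset.sum_le_sum_of_subset_of_nonneg
      · intro l hl
        rw [Finset.mem_Ioc] at hl
        rw [Finset.mem_range]
        omega
      · intros
        positivity
    have h2 : ∑ l ∈ Finset.range (i + 1), r ^ (i - l) = ∑ l ∈ Finset.range (i + 1), r ^ l := by
      have := Finset.sum_range_reflect (fun l => r ^ l) (i + 1)
      rw [← this]
      refine Finset.sum_congr rfl fun l _ => ?_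
      congr 1
    rw [h2] at h1
    refine h1.trans ?_
    rw [geom_sum_eq hr1.ne, ← neg_div_neg_eq]
    have h3 : 0 ≤ r ^ (i + 1) := by positivity
    rw [neg_sub, neg_sub]
    exact div_le_div_of_nonneg_right (by linarith) h1r.le
  constructor
  · calc ∑ l ∈ Finset.Ioc k i, (4 : ℝ) ^ l * al k l
        ≤ ∑ l ∈ Finset.Ioc k i, 1 / c * (4 ^ i * al k i) * r ^ (i - l) := Finset.sum_le_sum hterm
      _ = 1 / c * (4 ^ i * al k i) * ∑ l ∈ Finset.Ioc k i, r ^ (i - l) := by
          rw [Finset.mul_sum]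
      _ ≤ 1 / c * (4 ^ i * al k i) * (1 / (1 - r)) :=
          mul_le_mul_of_nonneg_left hgeo (by positivity)
      _ = A * (4 ^ i * al k i) := by rw [hA]; ring
      _ ≤ (A + B) * (4 ^ i * al k i) := mul_le_mul_of_nonneg_right (by linarith) hi0
  · have h1 := h (k + 1) i (by omega) (by omega)
    have h2 : (1 : ℝ) ≤ (2 : ℝ) ^ (a * ((i : ℝ) - (k + 1 : ℕ))) := by
      apply Real.one_le_rpow (by norm_num)
      have : ((k + 1 : ℕ) : ℝ) ≤ i := by exact_mod_cast hi
      have : 0 ≤ (i : ℝ) - (k + 1 : ℕ) := by linarith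
      positivity
    have h3 : c * (4 ^ (k + 1) * al k (k + 1)) ≤ 4 ^ i * al k i := by
      refine le_trans ?_ h1
      have : c * 1 * (4 ^ (k + 1) * al k (k + 1)) ≤
          c * (2 : ℝ) ^ (a * ((i : ℝ) - (k + 1 : ℕ))) * (4 ^ (k + 1) * al k (k + 1)) := by
        apply mul_le_mul_of_nonneg_right _ (by positivity)
        exact mul_le_mul_of_nonneg_left h2 hc.le
      simpa using this
    have h4 : (1 : ℝ) ≤ B * (4 ^ i * al k i) := by
      have : B * (c * (4 ^ (k + 1) * al k (k + 1))) = 1 := by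
        rw [hB]
        field_simp
      rw [← this]
      exact mul_le_mul_of_nonneg_left h3 hBpos.le
    refine h4.trans (mul_le_mul_of_nonneg_right (by linarith) hi0)

end DP
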